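import Pool.Agent.R448.NC.Main

/-!
# One-factorizations of multigraphs with large minimum multiplicity

A finite multigraph has vertex set `V` and edge set `E`; the edge `e` joins the two vertices of
`ends e : Sym2 V`.

Let `G` be `Δ`-regular of order `2 n`, any two vertices being joined by at least `a` edges, and
`Δ ≤ a (2 n + 1)`.  Then `G` is the union of `a` complete graphs and of a regular multigraph `R` of
degree at most `2 a`, about which nothing is known.

Proof.  The (`k`-fold) multigraph `R` is decomposed into 2-factors (Petersen), given by permutations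
without fixed points.  The edges of a 2-factor `F` have a proper colouring with three colours, each
colour is missed by an even number of vertices, and `F` together with a perfect matching `N` which
joins only vertices missing the same colour is the union of three perfect matchings.  The matching `N`
is taken from one of the complete graphs; the complete graph without `N` is the union of perfect
matchings as it consists of pairs of twins.
-/

set_option autoImplicit false

namespace Pool.Agent.Results.MP_303500_co.CompleteCore

/-- the multigraph has no loops and every vertex has degree `r` -/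
def IsRegular {V E : Type} (ends : E → Sym2 V) (r : ℕ) : Prop :=
  (∀ e, ¬ (ends e).IsDiag) ∧ ∀ v, {e | v ∈ ends e}.ncard = r

/-- there are `k * r` 1-factors (perfect matchings), repetitions allowed, such that every edge is in
exactly `k` of them; for `k = 1` and an `r`-regular multigraph: it is 1-factorable -/
def HasCover {V E : Type} (ends : E → Sym2 V) (k r : ℕ) : Prop :=
  ∃ M : Fin (k * r) → Set E, (∀ i v, ∃! e, e ∈ M i ∧ v ∈ ends e) ∧
    ∀ e, {i | e ∈ M i}.ncard = k

theorem cover {V E : Type} [Finite V] [Finite E] (ends : E → Sym2 V) (r μ : ℕ)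
    (hG : IsRegular ends r) (hV : Even (Nat.card V))
    (hμ : ∀ u v, u ≠ v → μ ≤ {e | ends e = s(u, v)}.ncard) (hr : r ≤ μ * (Nat.card V + 1))
    (k : ℕ) (hk : Even (k * (r + μ))) : HasCover ends k r := by
  classical
  have := Fintype.ofFinite V
  rw [Nat.card_eq_fintype_card] at hV hr
  rcases isEmpty_or_nonempty V with hE | ⟨⟨v₀⟩⟩
  · have hE' : IsEmpty E := ⟨fun e => by
      have : ∀ z : Sym2 V, False := fun z => by
        induction z using Sym2.inductionOn with
        | hf u v => exact isEmptyElim u
      exact this (ends e)⟩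
    exact ⟨fun _ => ∅, fun _ v => isEmptyElim v, fun e => isEmptyElim e⟩
  · have h1 : 1 ≤ Fintype.card V := Fintype.card_pos_iff.2 ⟨v₀⟩
    obtain ⟨h, hh⟩ := hV
    have h2 : 2 ≤ Fintype.card V := by omega
    have hrow : ∀ u, ∑ v, Pool.Agent.R448.TW.mu ends u v = r := fun u => by
      rw [Pool.Agent.R448.TW.mu_row ends hG.1 u]
      exact hG.2 u
    have hlow : μ * (Fintype.card V - 1) ≤ r := by
      have h3 : ∑ v, (if v₀ = v then 0 else μ) ≤ ∑ v, Pool.Agent.R448.TW.mu ends v₀ v :=
        Finset.sum_le_sum fun v _ => by
          by_cases h4 : v₀ = v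
          · rw [if_pos h4]; exact Nat.zero_le _
          · rw [if_neg h4]; exact hμ v₀ v h4
      rw [hrow] at h3
      have h5 : ∑ v, ((if v₀ = v then 0 else μ) + (if v₀ = v then μ else 0)) =
          Fintype.card V * μ := by
        have h6 : ∀ v, (if v₀ = v then 0 else μ) + (if v₀ = v then μ else 0) = μ := by
          intro v
          split_ifs <;> simp
        rw [Finset.sum_congr rfl fun v _ => h6 v, Finset.sum_const, Finset.card_univ, smul_eq_mul]
      rw [Finset.sum_add_distrib, Finset.sum_ite_eq Finset.univ v₀ (fun _ => μ),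
        if_pos (Finset.mem_univ _)] at h5
      obtain ⟨t, ht⟩ : ∃ t, Fintype.card V = t + 1 := ⟨Fintype.card V - 1, by omega⟩
      rw [ht, Nat.add_sub_cancel]
      rw [ht] at h5
      nlinarith
    obtain ⟨d, hd⟩ := Nat.exists_eq_add_of_le hlow
    obtain ⟨g, hg⟩ : ∃ g, Fintype.card V = 2 * g + 2 := ⟨h - 1, by omega⟩
    have e1 : Fintype.card V - 1 = 2 * g + 1 := by omega
    rw [e1] at hd
    have h7 : d ≤ 2 * μ := by
      rw [hg] at hr
      nlinarith
    have h8 : Even (k * d) := by
      have e2 : k * (r + μ) = k * d + 2 * (k * (μ * (g + 1))) := by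
        rw [hd]; ring
      rw [e2] at hk
      exact (Nat.even_add.1 hk).2 (even_two_mul _)
    obtain ⟨s, hs⟩ := h8
    have h9 : s ≤ k * μ := by nlinarith
    obtain ⟨M, hM1, hM2⟩ := Pool.Agent.R448.NC.dec ⟨h, hh⟩ h2 (Pool.Agent.R448.TW.mu ends)
      (Pool.Agent.R448.TW.mu_symm ends) (Pool.Agent.R448.TW.mu_self ends hG.1) k r μ s hrow hμ
      (by rw [e1, hd, mul_add, hs]; ring) h9
    exact Pool.Agent.R448.TW.edges ends (k * r) k hG.1 M hM1 hM2

/-- Let `G` be a finite `Δ`-regular loopless multigraph of order `2 n` such that any two different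
vertices are joined by at least `a` edges.  If `Δ ≤ a (2 n + 1)` and `Δ + a` is even, or if
`Δ ≤ (a - 1) (2 n + 1)`, then `G` is 1-factorable.  If `Δ ≤ a (2 n + 1)` then, for every even `k`,
there are `k Δ` 1-factors of `G` which cover every edge exactly `k` times. -/
theorem result {V E : Type} [Finite V] [Finite E] (ends : E → Sym2 V) (Δ a n : ℕ)
    (hG : IsRegular ends Δ) (hV : Nat.card V = 2 * n)
    (ha : ∀ u v, u ≠ v → a ≤ {e | ends e = s(u, v)}.ncard) :
    ((Even (Δ + a) ∧ Δ ≤ a * (2 * n + 1)) ∨ Δ + (2 * n + 1) ≤ a * (2 * n + 1) →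
      HasCover ends 1 Δ) ∧
    (Δ ≤ a * (2 * n + 1) → ∀ k, Even k → HasCover ends k Δ) := by
  have hV' : Even (Nat.card V) := by rw [hV]; exact even_two_mul n
  refine ⟨?_, fun h k hk => cover ends Δ a hG hV' ha (by rw [hV]; exact h) k (hk.mul_right _)⟩
  rintro (⟨h1, h2⟩ | h1)
  · exact cover ends Δ a hG hV' ha (by rw [hV]; exact h2) 1 (by rw [one_mul]; exact h1)
  · by_cases h2 : Even (Δ + a)
    · exact cover ends Δ a hG hV' ha (by rw [hV]; omega) 1 (by rw [one_mul]; exact h2)
    · have h3 : 1 ≤ a := by
        rcases Nat.eq_zero_or_pos a with h | h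
        · subst h; omega
        · exact h
      obtain ⟨b, rfl⟩ : ∃ b, a = b + 1 := ⟨a - 1, by omega⟩
      refine cover ends Δ b hG hV' (fun u v h => (Nat.le_succ b).trans (ha u v h)) ?_ 1 ?_
      · rw [hV]; nlinarith
      · rw [one_mul]
        by_contra h4
        rcases Nat.even_or_odd (Δ + b) with h5 | h5
        · exact h4 h5
        · apply h2
          rw [← add_assoc]
          exact h5.add_one

end Pool.Agent.Results.MP_303500_co.CompleteCore
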